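import Mathlib

open Filter Topology

noncomputable section

namespace Pool.Agent.Results.MP_a6d20f_an.NoAcceleration

/-- The class `𝓕¹_{μ,L}`: differentiable `f : ℝ → ℝ` whose derivative has all difference
quotients in `[μ, L]`. -/
def Cls (μ L : ℝ) (f : ℝ → ℝ) : Prop :=
  Differentiable ℝ f ∧ ∀ x y, x ≠ y →
    μ ≤ (deriv f x - deriv f y) / (x - y) ∧ (deriv f x - deriv f y) / (x - y) ≤ L

/-- Heavy-ball iterates from `x₀, x₁`. -/
def hb (γ β : ℝ) (f : ℝ → ℝ) (x₀ x₁ : ℝ) : ℕ → ℝ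
  | 0 => x₀
  | 1 => x₁
  | t + 2 => (1 + β) * hb γ β f x₀ x₁ (t + 1) - β * hb γ β f x₀ x₁ t -
      γ * deriv f (hb γ β f x₀ x₁ (t + 1))

/-- `limsup_t |x_t - x⋆|^{1/t}`, computed in `[0, ∞]`. -/
def rate (x : ℕ → ℝ) (xs : ℝ) : ENNReal :=
  limsup (fun t : ℕ => ENNReal.ofReal (|x t - xs| ^ (1 / (t : ℝ)))) atTop

/-- Some `f ∈ 𝓕¹_{μ,L}` with minimiser `xs` and some starting points give rate `> r`. -/
def Slow (μ L γ β r : ℝ) : Prop :=
  ∃ f, Cls μ L f ∧ ∃ xs, IsMinOn f Set.univ xs ∧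
    ∃ x₀ x₁, ENNReal.ofReal r < rate (hb γ β f x₀ x₁) xs

lemma lt_rate {x : ℕ → ℝ} {xs r ρ : ℝ} (hr : r < ρ) (h0 : 0 < ρ)
    (h : ∃ᶠ t in atTop, ρ ^ t ≤ |x t - xs|) : ENNReal.ofReal r < rate x xs := by
  refine ((ENNReal.ofReal_lt_ofReal_iff h0).2 hr).trans_le (le_limsup_of_frequently_le' ?_)
  refine (h.and_eventually (eventually_ne_atTop 0)).mono fun t ht => ENNReal.ofReal_le_ofReal ?_
  calc ρ = (ρ ^ t) ^ (1 / (t : ℝ)) := by rw [one_div, Real.pow_rpow_inv_natCast h0.le ht.2]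
    _ ≤ _ := Real.rpow_le_rpow (by positivity) ht.1 (by positivity)

lemma hb_eq {γ β : ℝ} {f : ℝ → ℝ} (x : ℕ → ℝ)
    (h : ∀ t, x (t + 2) = (1 + β) * x (t + 1) - β * x t - γ * deriv f (x (t + 1))) (t : ℕ) :
    hb γ β f (x 0) (x 1) t = x t := by
  induction t using Nat.twoStepInduction with
  | zero => rfl
  | one => rfl
  | more t h0 h1 => rw [hb, h0, h1, h]

lemma quad_deriv (a x : ℝ) : deriv (fun y : ℝ => a / 2 * y ^ 2) x = a * x := by
  have := ((hasDerivAt_pow 2 x).const_mul (a / 2)).deriv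
  rw [this]
  simp
  ring

lemma quad_cls {μ L a : ℝ} (h1 : μ ≤ a) (h2 : a ≤ L) : Cls μ L fun y : ℝ => a / 2 * y ^ 2 := by
  refine ⟨by fun_prop, fun x y hxy => ?_⟩
  rw [quad_deriv, quad_deriv, ← mul_sub, mul_div_assoc, div_self (sub_ne_zero.2 hxy), mul_one]
  exact ⟨h1, h2⟩

lemma quad_min {a : ℝ} (h : 0 ≤ a) : IsMinOn (fun y : ℝ => a / 2 * y ^ 2) Set.univ 0 :=
  fun y _ => by simp only [Set.mem_setOf_eq]; nlinarith [sq_nonneg y]

lemma slow_root {μ L γ β r a z : ℝ} (h0 : 0 ≤ a) (h1 : μ ≤ a) (h2 : a ≤ L) (hr : r < |z|)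
    (hz0 : 0 < |z|) (hz : z ^ 2 - (1 + β - γ * a) * z + β = 0) : Slow μ L γ β r := by
  refine ⟨_, quad_cls h1 h2, 0, quad_min h0, z ^ 0, z ^ 1, lt_rate hr hz0 ?_⟩
  refine Frequently.of_forall fun t => ?_
  rw [hb_eq (fun t => z ^ t) fun t => ?_]
  · simp [abs_pow]
  · rw [quad_deriv]
    linear_combination z ^ t * hz

lemma slow_beta {μ L γ β r : ℝ} (h0 : 0 ≤ μ) (h2 : μ ≤ L) (hr0 : 0 < r) (hr1 : r < 1)
    (hr : r < β) : Slow μ L γ β r := by
  set ρ := (r + min β 1) / 2 with hρ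
  have m1 := min_le_left β 1
  have m2 := min_le_right β 1
  have m3 : r < min β 1 := lt_min hr hr1
  have ρ0 : 0 < ρ := by linarith
  have ρβ : ρ ^ 2 < β := by nlinarith
  refine ⟨_, quad_cls le_rfl h2, 0, quad_min h0, 0, 1, lt_rate (ρ := ρ) (by linarith) ρ0 ?_⟩
  set x := hb γ β (fun y : ℝ => μ / 2 * y ^ 2) 0 1 with hx
  set s := 1 + β - γ * μ with hs
  have hQ : ∀ t, x (t + 1) ^ 2 - s * x (t + 1) * x t + β * x t ^ 2 = β ^ t := by
    intro t
    induction t with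
    | zero => simp [hx, hb]
    | succ t ih =>
      have : x (t + 1 + 1) = s * x (t + 1) - β * x t := by
        rw [hx, hb, quad_deriv]
        ring
      rw [this, pow_succ β, ← ih]
      ring
  by_contra hc
  rw [not_frequently] at hc
  have h3 := (tendsto_pow_atTop_atTop_of_one_lt
    ((one_lt_div (by positivity)).2 ρβ)).eventually_gt_atTop (ρ ^ 2 + |s| * ρ + β)
  obtain ⟨t, ⟨a1, a2⟩, a3⟩ := ((hc.and ((tendsto_add_atTop_nat 1).eventually hc)).and h3).exists
  rw [not_le, sub_zero] at a1 a2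
  rw [div_pow β, lt_div_iff₀ (by positivity), ← hQ t] at a3
  have b1 : x t ^ 2 ≤ (ρ ^ t) ^ 2 := by
    rw [← sq_abs]; exact pow_le_pow_left₀ (abs_nonneg _) a1.le 2
  have b2 : x (t + 1) ^ 2 ≤ (ρ ^ (t + 1)) ^ 2 := by
    rw [← sq_abs]; exact pow_le_pow_left₀ (abs_nonneg _) a2.le 2
  have b3 : -(s * x (t + 1) * x t) ≤ |s| * ρ ^ (t + 1) * ρ ^ t := by
    refine (neg_le_abs _).trans ?_
    rw [abs_mul, abs_mul]
    gcongr
  have b4 : β * x t ^ 2 ≤ β * (ρ ^ t) ^ 2 := mul_le_mul_of_nonneg_left b1 (by linarith)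
  have e : (ρ ^ 2 + |s| * ρ + β) * (ρ ^ 2) ^ t =
      (ρ ^ (t + 1)) ^ 2 + |s| * ρ ^ (t + 1) * ρ ^ t + β * (ρ ^ t) ^ 2 := by ring
  linarith

lemma abs_sin_mul (n : ℕ) (u : ℝ) : |Real.sin (n * u)| ≤ n * |Real.sin u| := by
  induction n with
  | zero => simp
  | succ n ih =>
    push_cast
    rw [add_mul, one_mul, Real.sin_add, add_mul, one_mul]
    refine (abs_add_le _ _).trans (add_le_add ?_ ?_)
    · rw [abs_mul]
      exact (mul_le_of_le_one_right (abs_nonneg _) (Real.abs_cos_le_one _)).trans ih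
    · rw [abs_mul]
      exact mul_le_of_le_one_left (abs_nonneg _) (Real.abs_cos_le_one _)

lemma exists_prim {μ L a C : ℝ} (hμ : 0 < μ) (h1 : μ + C ≤ a) (h2 : a + C ≤ L) (hC : 0 ≤ C)
    (x ψ : ℕ → ℝ) (h : ∀ i j, |ψ i - ψ j| ≤ C * |x i - x j|) :
    ∃ f, Cls μ L f ∧ (∃ xs, IsMinOn f Set.univ xs) ∧ ∀ i, deriv f (x i) = a * x i + ψ i := by
  classical
  set g0 : ℝ → ℝ := fun y => if hy : ∃ i, x i = y then ψ hy.choose else 0 with hg0
  have e0 : ∀ i, g0 (x i) = ψ i := by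
    intro i
    have hy : ∃ j, x j = x i := ⟨i, rfl⟩
    have := h hy.choose i
    rw [hy.choose_spec, sub_self, abs_zero, mul_zero, abs_nonpos_iff, sub_eq_zero] at this
    simp only [hg0, dif_pos hy, this]
  obtain ⟨g, hg, eg⟩ := LipschitzOnWith.extend_real (f := g0) (s := Set.range x) (K := ⟨C, hC⟩)
    (LipschitzOnWith.of_dist_le_mul (by
      rintro _ ⟨i, rfl⟩ _ ⟨j, rfl⟩
      rw [e0, e0]
      exact h i j))
  have hg' : ∀ u v, |g u - g v| ≤ C * |u - v| := hg.dist_le_mul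
  set G : ℝ → ℝ := fun y => a * y + g y with hG
  have Gc : Continuous G := (continuous_const.mul continuous_id).add hg.continuous
  have hd : ∀ y, HasDerivAt (fun u => ∫ v in (0 : ℝ)..u, G v) (G y) y := fun y =>
    (Gc.integral_hasStrictDerivAt 0 y).hasDerivAt
  have hde : deriv (fun u => ∫ v in (0 : ℝ)..u, G v) = G := funext fun y => (hd y).deriv
  have hdf : Differentiable ℝ fun u => ∫ v in (0 : ℝ)..u, G v := fun y => (hd y).differentiableAt
  have hsl : ∀ u v, v < u → μ * (u - v) ≤ G u - G v ∧ G u - G v ≤ L * (u - v) := by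
    intro u v huv
    have := hg' u v
    rw [abs_of_pos (sub_pos.2 huv), abs_le] at this
    have h3 := sub_pos.2 huv
    simp only [hG]
    constructor <;> nlinarith [this.1, this.2]
  refine ⟨_, ⟨hdf, fun u v huv => ?_⟩, ?_, fun i => ?_⟩
  · rw [hde]
    rcases lt_or_gt_of_ne huv with h3 | h3
    · rw [← neg_div_neg_eq, neg_sub, neg_sub, le_div_iff₀ (sub_pos.2 h3),
        div_le_iff₀ (sub_pos.2 h3)]
      exact hsl v u h3
    · rw [le_div_iff₀ (sub_pos.2 h3), div_le_iff₀ (sub_pos.2 h3)]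
      exact hsl u v h3
  · set R := |G 0| / μ + 1 with hR
    have R0 : 0 < R := by positivity
    have hRμ : μ * R = |G 0| + μ := by rw [hR]; field_simp
    obtain ⟨xs, -, hxs⟩ := intermediate_value_Icc (by linarith : -R ≤ R) Gc.continuousOn
      (show (0 : ℝ) ∈ Set.Icc (G (-R)) (G R) from
        ⟨by linarith [(hsl 0 (-R) (by linarith)).1, le_abs_self (G 0)],
          by linarith [(hsl R 0 R0).1, neg_abs_le (G 0)]⟩)
    refine ⟨xs, fun y _ => ?_⟩
    rcases lt_trichotomy xs y with h3 | rfl | h3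
    · obtain ⟨c, hc, e⟩ := exists_deriv_eq_slope _ h3 hdf.continuous.continuousOn
        hdf.differentiableOn
      have := (hsl c xs hc.1).1
      rw [hde, eq_div_iff (sub_pos.2 h3).ne'] at e
      have h4 : 0 ≤ G c := by nlinarith [hc.1]
      have := mul_nonneg h4 (sub_pos.2 h3).le
      simp only [Set.mem_setOf_eq]
      linarith
    · exact Set.mem_setOf.2 le_rfl
    · obtain ⟨c, hc, e⟩ := exists_deriv_eq_slope _ h3 hdf.continuous.continuousOn
        hdf.differentiableOn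
      have := (hsl xs c hc.2).1
      rw [hde, eq_div_iff (sub_pos.2 h3).ne'] at e
      have h4 : G c ≤ 0 := by nlinarith [hc.2]
      have := mul_nonpos_of_nonpos_of_nonneg h4 (sub_pos.2 h3).le
      simp only [Set.mem_setOf_eq]
      linarith
  · rw [hde, ← e0, eg ⟨i, rfl⟩]

lemma slow_cycle {μ L γ β r : ℝ} (hμ : 0 < μ) (hκ : 40 * μ ≤ L) (hγ : 0 < γ) (hr : r < 1)
    (hβ : β ≤ 1) (h4 : γ * L < 4) (hδ : 280 * (1 - β) ≤ γ * L) : Slow μ L γ β r := by
  classical
  set s := γ * L with hs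
  have s0 : 0 < s := mul_pos hγ (by linarith)
  have hex : ∃ K : ℕ, 80 ≤ s * (K : ℝ) ^ 2 := by
    obtain ⟨K, hK⟩ := exists_nat_ge (80 / s + 1)
    have h1 : 0 < 80 / s := by positivity
    refine ⟨K, ?_⟩
    rw [← div_le_iff₀' s0]
    nlinarith
  obtain ⟨K, hK1, hK2⟩ : ∃ K : ℕ, 80 ≤ s * (K : ℝ) ^ 2 ∧ s * ((K : ℝ) - 1) ^ 2 < 80 := by
    refine ⟨Nat.find hex, Nat.find_spec hex, ?_⟩
    have h0 : Nat.find hex ≠ 0 := by
      intro h
      have := Nat.find_spec hex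
      rw [h] at this
      norm_num at this
    have := Nat.find_min hex (Nat.sub_one_lt h0)
    rwa [not_le, Nat.cast_pred (Nat.pos_of_ne_zero h0)] at this
  have K0 : (0 : ℝ) ≤ K := K.cast_nonneg
  have K4 : (4 : ℝ) < K := by
    by_contra hc
    have : (K : ℝ) ^ 2 ≤ 16 := by nlinarith
    nlinarith
  have hK3 : s * (K : ℝ) ^ 2 ≤ 320 := by
    have : (K : ℝ) ^ 2 ≤ 4 * ((K : ℝ) - 1) ^ 2 := by nlinarith
    nlinarith
  have pi3 := Real.pi_gt_three
  have pi4 := Real.pi_lt_d2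
  set θ := 2 * Real.pi / K with hθ
  have θK : θ * K = 2 * Real.pi := by rw [hθ]; field_simp
  have θ0 : 0 < θ := by positivity
  have θ1 : θ ≤ Real.pi / 2 := by nlinarith
  set h := 2 - 2 * Real.cos θ with hh
  have h1 : h ≤ s / 2 := by
    have a1 := Real.one_sub_sq_div_two_le_cos (x := θ)
    have a2 : θ ^ 2 * (K : ℝ) ^ 2 ≤ s / 2 * (K : ℝ) ^ 2 := by
      rw [← mul_pow, θK]
      nlinarith
    have := le_of_mul_le_mul_right a2 (by positivity)
    linarith
  have h2 : s / 20 ≤ h := by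
    have a1 := Real.cos_le_one_sub_mul_cos_sq (x := θ) (by rw [abs_of_pos θ0]; linarith)
    have a2 : s / 20 * (K : ℝ) ^ 2 ≤ 4 / Real.pi ^ 2 * θ ^ 2 * (K : ℝ) ^ 2 := by
      rw [mul_assoc, ← mul_pow, θK]
      have : 4 / Real.pi ^ 2 * (2 * Real.pi) ^ 2 = 16 := by field_simp; norm_num
      linarith
    have := le_of_mul_le_mul_right a2 (by positivity)
    have e : 4 / Real.pi ^ 2 * θ ^ 2 = 2 * (2 / Real.pi ^ 2 * θ ^ 2) := by ring
    linarith
  set x : ℕ → ℝ := fun t => Real.cos (θ * t + θ / 4) with hx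
  have key : ∀ i j : ℕ, |(x (i + 1) - x i) - (x (j + 1) - x j)| ≤ 7 * |x (i + 1) - x (j + 1)| := by
    intro i j
    set u := θ * ((i : ℝ) + j + 2) / 2 + θ / 4 with hu
    set d := θ * ((i : ℝ) - j) / 2 with hd
    have e1 : x (i + 1) - x (j + 1) = -2 * Real.sin u * Real.sin d := by
      simp only [hx]
      rw [Real.cos_sub_cos]
      congr 2
      · congr 1; push_cast; ring
      · push_cast; ring
    have e2 : x i - x j = -2 * Real.sin (u - θ) * Real.sin d := by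
      simp only [hx]
      rw [Real.cos_sub_cos]
      congr 2
      · congr 1; ring
      · ring
    have e3 : (x (i + 1) - x i) - (x (j + 1) - x j) =
        -2 * (Real.sin u - Real.sin (u - θ)) * Real.sin d := by linear_combination e1 - e2
    have b1 : |Real.sin u - Real.sin (u - θ)| ≤ θ := by
      simpa [abs_of_pos θ0] using Real.abs_sin_sub_sin_le u (u - θ)
    have b2 : 1 ≤ K * |Real.sin u| := by
      refine le_trans ?_ (abs_sin_mul K u)
      have : K * u = ((i + j + 2 : ℕ) : ℝ) * Real.pi + Real.pi / 2 := by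
        rw [hu]
        push_cast
        linear_combination ((i : ℝ) + j + 2) / 2 * θK + 1 / 4 * θK
      rw [this, Real.sin_add_pi_div_two, Real.cos_nat_mul_pi]
      simp
    have b3 : θ ≤ 7 * |Real.sin u| := by
      refine le_of_mul_le_mul_right ?_ (by linarith : (0 : ℝ) < K)
      nlinarith
    rw [e3, e1]
    simp only [abs_mul]
    have := abs_nonneg (Real.sin d)
    have e4 : |(-2 : ℝ)| = 2 := by norm_num
    rw [e4]
    nlinarith
  have δ0 : 0 ≤ 1 - β := by linarith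
  obtain ⟨f, hf, ⟨xs, hxs⟩, hd⟩ := exists_prim (μ := μ) (L := L) (a := h / γ)
    (C := 7 * (1 - β) / γ) hμ
    (by rw [← le_sub_iff_add_le, ← sub_div, le_div_iff₀ hγ]; nlinarith)
    (by rw [← add_div, div_le_iff₀ hγ]; nlinarith) (by positivity)
    (fun t => x (t + 1)) (fun t => -((1 - β) / γ) * (x (t + 1) - x t)) (fun i j => by
      rw [← mul_sub, abs_mul, abs_neg, abs_of_nonneg (by positivity : 0 ≤ (1 - β) / γ)]
      calc _ ≤ (1 - β) / γ * (7 * |x (i + 1) - x (j + 1)|) :=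
            mul_le_mul_of_nonneg_left (key i j) (by positivity)
        _ = _ := by ring)
  have hrec : ∀ t, x (t + 2) = (1 + β) * x (t + 1) - β * x t - γ * deriv f (x (t + 1)) := by
    intro t
    rw [hd t]
    have e : x (t + 2) + x t = 2 * x (t + 1) * Real.cos θ := by
      simp only [hx]
      rw [Real.cos_add_cos]
      congr 2
      · congr 1; push_cast; ring
      · push_cast; ring
    field_simp
    linear_combination e
  set ρ := (max r 0 + 1) / 2 with hρ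
  have m1 := le_max_left r 0
  have m2 := le_max_right r 0
  have m3 : max r 0 < 1 := max_lt hr one_pos
  refine ⟨f, hf, xs, hxs, x 0, x 1, lt_rate (ρ := ρ) (by linarith) (by linarith) ?_⟩
  have per : ∀ n k : ℕ, x (k + K * n) = x k := by
    intro n k
    simp only [hx]
    rw [← Real.cos_add_nat_mul_two_pi (θ * k + θ / 4) n]
    congr 1
    push_cast
    linear_combination (n : ℝ) * θK
  have hne : ∃ k, x k ≠ xs := by
    by_contra hc
    push Not at hc
    have : x 1 < x 0 := Real.cos_lt_cos_of_nonneg_of_le_pi (by positivity)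
      (by push_cast; linarith) (by push_cast; linarith)
    rw [hc, hc] at this
    exact lt_irrefl _ this
  obtain ⟨k, hk⟩ := hne
  have hev := (tendsto_pow_atTop_nhds_zero_of_lt_one (r := ρ) (by linarith)
    (by linarith)).eventually (ge_mem_nhds (abs_pos.2 (sub_ne_zero.2 hk)))
  obtain ⟨N, hN⟩ := eventually_atTop.1 hev
  refine frequently_atTop.2 fun n => ⟨k + K * (n + N), ?_, ?_⟩
  · have : 4 < K := by exact_mod_cast K4
    nlinarith
  · have : 4 < K := by exact_mod_cast K4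
    rw [hb_eq x hrec, per]
    exact hN _ (by nlinarith)

lemma strong (μ L γ β : ℝ) (hμ : 0 < μ) (hκ : 1200 * μ ≤ L) (hγ : 0 < γ) :
    Slow μ L γ β (1 - 1120 * (μ / L)) := by
  have L0 : 0 < L := by linarith
  set η := 560 * (μ / L) with hη
  have η0 : 0 < η := by positivity
  have ηL : η * L = 560 * μ := by rw [hη]; field_simp
  have η1 : η < 1 / 2 := by nlinarith
  rw [show 1 - 1120 * (μ / L) = 1 - 2 * η by rw [hη]; ring]
  have pc : ∀ a, Continuous fun z : ℝ => z ^ 2 - (1 + β - γ * a) * z + β := fun a => by fun_prop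
  by_cases c1 : γ * μ ≤ η * (1 - β - η)
  · obtain ⟨z, hz, e⟩ := intermediate_value_Icc (by linarith : 1 - η ≤ 1) (pc μ).continuousOn
      (show (0 : ℝ) ∈ Set.Icc _ _ from ⟨by nlinarith [mul_pos hγ hμ], by nlinarith [mul_pos hγ hμ]⟩)
    have : 1 - η ≤ |z| := hz.1.trans (le_abs_self z)
    exact slow_root hμ.le le_rfl (by linarith) (by linarith) (by linarith) e
  by_cases c2 : 2 * (1 + β) ≤ γ * L
  · set R := |1 + β - γ * L| + |β| + 1 with hR
    have a1 := abs_nonneg (1 + β - γ * L)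
    have a2 := abs_nonneg β
    obtain ⟨z, hz, e⟩ := intermediate_value_Icc' (by linarith : -R ≤ -1) (pc L).continuousOn
      (show (0 : ℝ) ∈ Set.Icc _ _ from ⟨by nlinarith, by
        nlinarith [neg_abs_le β, neg_abs_le (1 + β - γ * L)]⟩)
    have : 1 ≤ |z| := by linarith [neg_le_abs z, hz.2]
    exact slow_root L0.le (by linarith) le_rfl (by linarith) (by linarith) e
  by_cases c3 : 1 - β < 2 * η
  · exact slow_beta hμ.le (by linarith) (by linarith) (by linarith) (by linarith)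
  rw [not_le] at c1 c2
  rw [not_lt] at c3
  refine slow_cycle hμ (by linarith) hγ (by linarith) (by linarith) (by linarith) ?_
  have a1 : η * (1 - β) ≤ 2 * (γ * μ) := by nlinarith
  have a2 := mul_le_mul_of_nonneg_right a1 L0.le
  refine le_of_mul_le_mul_left ?_ (by linarith : 0 < 2 * μ)
  nlinarith

theorem result :
    (∀ μ L γ β : ℝ, 0 < μ → 1200 * μ ≤ L → 0 < γ → Slow μ L γ β (1 - 1120 * (μ / L))) ∧
    ∀ γ β : ℝ → ℝ → ℝ, (∀ μ L, 0 < μ → μ < L → 0 < γ μ L) →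
      ∀ c κ₀ : ℝ, 0 < c → 0 < κ₀ → κ₀ < 1 →
        ∃ μ L : ℝ, 0 < μ ∧ μ < L ∧ μ / L ≤ κ₀ ∧
          Slow μ L (γ μ L) (β μ L) (1 - c * Real.sqrt (μ / L)) := by
  refine ⟨strong, fun γ β hγ c κ₀ hc h0 h1 => ?_⟩
  set μ := min κ₀ (min (1 / 1200) ((c / 1120) ^ 2)) with hμ
  have μ0 : 0 < μ := by positivity
  have m1 : μ ≤ κ₀ := min_le_left _ _
  have m2 : μ ≤ 1 / 1200 := (min_le_right _ _).trans (min_le_left _ _)
  have m3 : μ ≤ (c / 1120) ^ 2 := (min_le_right _ _).trans (min_le_right _ _)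
  refine ⟨μ, 1, μ0, by linarith, by linarith, ?_⟩
  obtain ⟨f, hf, xs, hxs, x₀, x₁, h⟩ := strong μ 1 (γ μ 1) (β μ 1) μ0 (by linarith)
    (hγ μ 1 μ0 (by linarith))
  refine ⟨f, hf, xs, hxs, x₀, x₁, lt_of_le_of_lt (ENNReal.ofReal_le_ofReal ?_) h⟩
  rw [div_one]
  have a1 : Real.sqrt μ ≤ c / 1120 := Real.sqrt_le_iff.2 ⟨by positivity, m3⟩
  have a2 := Real.mul_self_sqrt μ0.le
  have a3 := Real.sqrt_nonneg μ
  nlinarith

end Pool.Agent.Results.MP_a6d20f_an.NoAcceleration
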